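import Pool.Agent.Lib_helper99.TJG.S
import Pool.Agent.Lib_helper99.TJG.L7b
import Pool.Agent.Lib_helper40.TJ.V10

/-!
# Curves with transcendental invariant and groups of prime order
-/

set_option autoImplicit false

namespace Pool.Agent.TJ

theorem firstOrder {K : Type*} [Field K] [CharZero K] [IsAlgClosed K] {p : ℕ} [NeZero p]
    (hp : p.Prime) (h5 : 5 ≤ p) : TJG.FirstOrder K p := by
  intro O B x hv t hB0 hB hx n hn h0 hs hprod
  obtain ⟨z, hz, h⟩ := TJG.root hv hp h5 t hB hx
  refine TJ.indep hv hz hp h5 t hB0 hB (fun c hc => ?_) n hn h0 hs hprod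
  have := h c hc
  unfold Xc Xu
  rwa [ps_apply]

/-- **transcendental invariant, prime order** -/
theorem siegel_trans {k : Type*} [Field k] [DecidableEq k] [CharZero k]
    (W : WeierstrassCurve.Affine k) (H : AddSubgroup W.Point) [Fintype H]
    (hp : (Fintype.card H).Prime) (h5 : 5 ≤ Fintype.card H)
    (hj : Transcendental ℚ (W.c₄ ^ 3 / W.Δ)) : FK4.SiegelIndep H := by
  have : NeZero (Fintype.card H) := ⟨hp.ne_zero⟩
  exact TJG.siegel_of W H rfl hp h5 hj (firstOrder hp h5)

end Pool.Agent.TJ
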