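import Mathlib

/-!
# The abscissae of the multiples of a point of prime order on `y² = x³ + A x² + B`
-/

set_option autoImplicit false

namespace Pool.Agent.TJ

/-- the cubic -/
def ff {K : Type*} [Field K] (A B x : K) : K := x ^ 3 + A * x ^ 2 + B

/-- `x c` is the abscissa of `c • P`, `c ≠ 0`, on `y² = x³ + A x² + B` -/
structure Tor {K : Type*} [Field K] (p : ℕ) (A B : K) (x : ZMod p → K) : Prop where
  even : ∀ c, x (-c) = x c
  ne0 : ∀ c, c ≠ 0 → ff A B (x c) ≠ 0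
  dbl : ∀ c, c ≠ 0 → x (2 * c) * (4 * ff A B (x c)) = x c ^ 4 - 8 * B * x c - 4 * A * B
  ne : ∀ b c, b ≠ 0 → c ≠ 0 → b ≠ c → b ≠ -c → x b ≠ x c
  sum : ∀ b c, b ≠ 0 → c ≠ 0 → b ≠ c → b ≠ -c →
    (x (b + c) + x (b - c)) * (x b - x c) ^ 2 =
      2 * x b * x c * (x b + x c + 2 * A) + 4 * B
  prod : ∀ b c, b ≠ 0 → c ≠ 0 → b ≠ c → b ≠ -c →
    x (b + c) * x (b - c) * (x b - x c) ^ 2 =
      (x b * x c) ^ 2 - 4 * B * (x b + x c) - 4 * A * B

/-- the number `γ(c)` -/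
noncomputable def gax {K : Type*} [Field K] {p : ℕ} [NeZero p] (A B : K) (x : ZMod p → K)
    (c : ZMod p) : K :=
  4 * ff A B (x c) * ∏ b : ZMod p, if b = 0 ∨ b = c ∨ b = -c then 1 else x c - x b

end Pool.Agent.TJ
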